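import Mathlib
import Pool.Agent.H705R2.Rot

/-!
Uniform upper bounds for the number of visits of an irrational rotation to a closed set of small
measure.
-/

set_option autoImplicit false

open MeasureTheory Filter Topology Set

namespace Pool.Agent.Zk63.RS45

open Pool.Agent.H705R2

lemma avg_sub_le (a s s' : Circ) (g : Circ → ℝ) (e δ : ℝ)
    (hg : ∀ x y : Circ, dist x y < δ → dist (g x) (g y) < e) (hs : dist s s' < δ) (M : ℕ) :
    ∑ m ∈ Finset.range M, g (s + m • a) ≤ ∑ m ∈ Finset.range M, g (s' + m • a) + e * M := by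
  have h1 : ∀ m ∈ Finset.range M, g (s + m • a) ≤ g (s' + m • a) + e := by
    intro m _
    have h2 : dist (s + m • a) (s' + m • a) < δ := by simpa using hs
    have h3 := hg _ _ h2
    rw [Real.dist_eq] at h3
    have := (abs_lt.1 h3).2
    linarith
  calc ∑ m ∈ Finset.range M, g (s + m • a) ≤ ∑ m ∈ Finset.range M, (g (s' + m • a) + e) :=
        Finset.sum_le_sum h1
    _ = _ := by rw [Finset.sum_add_distrib]; simp [mul_comm]

/-- The number of visits to a closed set of measure less than `ε`, uniformly in the starting point. -/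
theorem uniform_visits {a : Circ} (ha : addOrderOf a = 0) {N : Set Circ} (hN : IsClosed N)
    {ε : ℝ} (hε : 0 < ε) (hNv : volume N < ENNReal.ofReal ε) :
    ∃ M₀ : ℕ, ∀ M : ℕ, M₀ ≤ M → ∀ s : Circ,
      (({m : ℕ | m < M ∧ s + m • a ∈ N}).ncard : ℝ) ≤ 4 * ε * M := by
  classical
  obtain ⟨U, hNU, hUo, hUv⟩ : ∃ U ⊇ N, IsOpen U ∧ volume U < ENNReal.ofReal ε :=
    N.exists_isOpen_lt_of_lt _ hNv
  obtain ⟨g, hg0, hg1, hg01⟩ := exists_continuous_zero_one_of_isClosed hUo.isClosed_compl hN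
    (by rw [disjoint_compl_left_iff_subset]; exact hNU)
  let h : C(Circ, ℂ) := ⟨fun x => (g x : ℂ), by fun_prop⟩
  have hint : (∫ x : Circ, h x).re ≤ ε := by
    have h1 : ∫ x : Circ, h x = ((∫ x : Circ, g x : ℝ) : ℂ) := by
      simp only [h, ContinuousMap.coe_mk]
      exact integral_ofReal
    rw [h1, Complex.ofReal_re]
    have h2 : ∫ x : Circ, g x ≤ ∫ x : Circ, U.indicator (fun _ => (1 : ℝ)) x := by
      apply integral_mono
      · exact g.continuous.integrable_of_hasCompactSupport (HasCompactSupport.of_compactSpace _)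
      · exact (integrable_indicator_iff hUo.measurableSet).2 (integrableOn_const (by simp) )
      · intro x
        by_cases hx : x ∈ U
        · simp only [hx, indicator_of_mem]; exact (hg01 x).2
        · simp only [hx, not_false_eq_true, indicator_of_notMem]
          exact le_of_eq (hg0 hx)
    rw [integral_indicator hUo.measurableSet] at h2
    simp only [integral_const, MeasurableSet.univ, measureReal_restrict_apply, univ_inter, smul_eq_mul, mul_one] at h2
    refine h2.trans ?_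
    rw [Measure.real]
    exact ENNReal.toReal_le_of_le_ofReal hε.le hUv.le
  have huc : UniformContinuous g := CompactSpace.uniformContinuous_of_continuous g.continuous
  obtain ⟨δ, hδ, hgδ⟩ := Metric.uniformContinuous_iff.1 huc ε hε
  obtain ⟨t, -, htf, htc⟩ := finite_cover_balls_of_compact (isCompact_univ (X := Circ)) hδ
  have hw : ∀ s ∈ t, ∀ᶠ M : ℕ in atTop, (avg a s h M).re < 2 * ε := by
    intro s _
    have hw' : Tendsto (fun M => (avg a s h M).re) atTop (𝓝 (∫ x : Circ, h x).re) :=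
      (Complex.continuous_re.tendsto _).comp (weyl ha s h)
    apply hw'.eventually_lt_const
    linarith
  have hall : ∀ᶠ M : ℕ in atTop, ∀ s ∈ t, (avg a s h M).re < 2 * ε :=
    (htf.eventually_all).2 hw
  obtain ⟨M₀, hM₀⟩ := eventually_atTop.1 (hall.and (eventually_gt_atTop 0))
  refine ⟨M₀, fun M hM s => ?_⟩
  obtain ⟨hMt, hMpos⟩ := hM₀ M hM
  have hs : s ∈ ⋃ x ∈ t, Metric.ball x δ := htc (mem_univ s)
  simp only [mem_iUnion] at hs
  obtain ⟨s', hs't, hss'⟩ := hs
  have h1 := hMt s' hs't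
  unfold avg at h1
  have h2 : (∑ m ∈ Finset.range M, h (s' + m • a)) / (M : ℂ)
      = (((∑ m ∈ Finset.range M, g (s' + m • a)) / M : ℝ) : ℂ) := by
    push_cast; rfl
  have hMr : (0 : ℝ) < M := by exact_mod_cast hMpos
  rw [h2, Complex.ofReal_re, div_lt_iff₀ hMr] at h1
  have h3 := avg_sub_le a s s' g ε δ (fun x y hxy => hgδ hxy) hss' M
  have h4 : ((({m : ℕ | m < M ∧ s + m • a ∈ N}).ncard : ℕ) : ℝ)
      ≤ ∑ m ∈ Finset.range M, g (s + m • a) := by
    have h5 : {m : ℕ | m < M ∧ s + m • a ∈ N}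
        = ((Finset.range M).filter (fun m => s + m • a ∈ N) : Finset ℕ) := by
      ext m; simp
    rw [h5, Set.ncard_coe_finset, Finset.card_filter]
    push_cast
    refine Finset.sum_le_sum fun m _ => ?_
    split_ifs with hm
    · have := hg1 hm
      simp only [Pi.one_apply] at this
      rw [this]
    · exact (hg01 _).1
  nlinarith

/-- The same in a window. -/
theorem uniform_window {a : Circ} (ha : addOrderOf a = 0) {N : Set Circ} (hN : IsClosed N)
    {ε : ℝ} (hε : 0 < ε) (hNv : volume N < ENNReal.ofReal ε) :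
    ∃ M₀ : ℕ, ∀ n1 n2 : ℕ, n1 + M₀ ≤ n2 → ∀ s : Circ,
      (({m : ℕ | n1 ≤ m ∧ m < n2 ∧ s + m • a ∈ N}).ncard : ℝ) ≤ 4 * ε * n2 := by
  obtain ⟨M₀, hM₀⟩ := uniform_visits ha hN hε hNv
  refine ⟨M₀, fun n1 n2 hn s => ?_⟩
  have h1 := hM₀ (n2 - n1) (by omega) (s + n1 • a)
  have h2 : {m : ℕ | n1 ≤ m ∧ m < n2 ∧ s + m • a ∈ N}
      ⊆ (fun m => n1 + m) '' {m : ℕ | m < n2 - n1 ∧ (s + n1 • a) + m • a ∈ N} := by
    rintro m ⟨hm1, hm2, hm3⟩
    refine ⟨m - n1, ⟨by omega, ?_⟩, by simp only; omega⟩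
    rw [add_assoc, ← add_smul]
    have : n1 + (m - n1) = m := by omega
    rw [this]; exact hm3
  have hfin : {m : ℕ | m < n2 - n1 ∧ (s + n1 • a) + m • a ∈ N}.Finite :=
    (Set.finite_lt_nat (n2 - n1)).subset fun m hm => hm.1
  have h3 : ({m : ℕ | n1 ≤ m ∧ m < n2 ∧ s + m • a ∈ N}).ncard
      ≤ ({m : ℕ | m < n2 - n1 ∧ (s + n1 • a) + m • a ∈ N}).ncard :=
    (Set.ncard_le_ncard h2 (hfin.image _)).trans (Set.ncard_image_le hfin)
  have h4 : ((n2 - n1 : ℕ) : ℝ) ≤ n2 := by exact_mod_cast Nat.sub_le _ _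
  calc (({m : ℕ | n1 ≤ m ∧ m < n2 ∧ s + m • a ∈ N}).ncard : ℝ)
      ≤ (({m : ℕ | m < n2 - n1 ∧ (s + n1 • a) + m • a ∈ N}).ncard : ℝ) := by exact_mod_cast h3
    _ ≤ 4 * ε * ((n2 - n1 : ℕ) : ℝ) := h1
    _ ≤ 4 * ε * n2 := by gcongr

/-- irrationality of the rotation -/
lemma order_alpha {p q : ℕ} (hp : 2 ≤ p) (hpq : p < q) (h : MulIndep p q) :
    addOrderOf ((Real.log p / (Real.log q - Real.log p) : ℝ) : Circ) = 0 := by
  rw [addOrderOf_eq_zero_iff, isOfFinAddOrder_iff_nsmul_eq_zero]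
  rintro ⟨n, hn, hn0⟩
  rw [← AddCircle.coe_nsmul, AddCircle.coe_eq_zero_iff] at hn0
  obtain ⟨k, hk⟩ := hn0
  simp only [zsmul_eq_mul, mul_one, nsmul_eq_mul] at hk
  have hp1 : (1 : ℝ) < p := by exact_mod_cast (by omega : 1 < p)
  have hpq' : (p : ℝ) < q := by exact_mod_cast hpq
  have hlp : 0 < Real.log p := Real.log_pos hp1
  have hlq : 0 < Real.log q - Real.log p := by
    have := Real.log_lt_log (by linarith) hpq'
    linarith
  have hkpos : (0 : ℝ) ≤ k := by rw [hk]; positivity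
  have hk0 : 0 ≤ k := by exact_mod_cast hkpos
  obtain ⟨l, rfl⟩ := Int.eq_ofNat_of_zero_le hk0
  have h1 : (l : ℝ) * (Real.log q - Real.log p) = n * Real.log p := by
    have : ((l : ℤ) : ℝ) = (l : ℝ) := by norm_cast
    rw [← this, hk]; field_simp
  have h2 : Real.log ((q : ℝ) ^ l) = Real.log ((p : ℝ) ^ (n + l)) := by
    rw [Real.log_pow, Real.log_pow]; push_cast; linarith
  have h3 : (q : ℝ) ^ l = (p : ℝ) ^ (n + l) :=
    Real.log_injOn_pos (mem_Ioi.2 (pow_pos (by linarith) _)) (mem_Ioi.2 (pow_pos (by linarith) _)) h2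
  have h4 : p ^ (n + l) = q ^ l := by exact_mod_cast h3.symm
  have := (h (n + l) l h4).1
  omega

end Pool.Agent.Zk63.RS45
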