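import Mathlib
import Pool.Agent.Zk63.RS45.Uni
import Pool.Agent.Zk45.RS.Stm

/-!
Windows: for `p < q` multiplicatively independent and a small real number `r ≠ 0` the set of the
products `p ^ a q ^ b r`, `a + b = m`, meets a given open set for most `m` in a long window.
-/

set_option autoImplicit false

open MeasureTheory Filter Topology Set

namespace Pool.Agent.Zk63.RS45

open Pool.Agent.H705R2 Pool.Agent.Zk45.RS

/-- the starting points all of whose first points avoid `J` -/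
def AI (ρ κ : ℝ) (J : Set Circ) (I : ℕ) : Set ℝ :=
  {s | s ∈ Icc (0 : ℝ) 1 ∧ ∀ j : ℕ, j ≤ I → ((κ * ρ ^ (s + (j : ℝ)) : ℝ) : Circ) ∉ J}

lemma isClosed_AI {ρ : ℝ} (hρ : 1 < ρ) (κ : ℝ) {J : Set Circ} (hJ : IsOpen J) (I : ℕ) :
    IsClosed (AI ρ κ J I) := by
  have h1 : AI ρ κ J I = Icc (0 : ℝ) 1 ∩
      ⋂ j : ℕ, ⋂ _ : j ≤ I, {s : ℝ | ((κ * ρ ^ (s + (j : ℝ)) : ℝ) : Circ) ∉ J} := by
    ext s; simp [AI]
  rw [h1]
  refine isClosed_Icc.inter (isClosed_iInter fun j => isClosed_iInter fun _ =>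
    hJ.isClosed_compl.preimage ?_)
  have hρ0 : ρ ≠ 0 := by linarith
  refine (AddCircle.continuous_mk' 1).comp ?_
  refine continuous_const.mul ?_
  exact (Real.continuous_const_rpow hρ0).comp (by fun_prop)

lemma exists_small (h : S_NULL) {ρ : ℝ} (hρ : 1 < ρ) {κ : ℝ} (hκ : κ ≠ 0) {J : Set Circ}
    (hJ : IsOpen J) (hJn : J.Nonempty) {ε : ℝ} (hε : 0 < ε) :
    ∃ I : ℕ, volume (AI ρ κ J I) < ENNReal.ofReal ε := by
  have h1 : volume (⋂ I, AI ρ κ J I) = 0 := by
    refine measure_mono_null ?_ (h ρ hρ κ hκ J hJ hJn)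
    intro s hs j
    exact (mem_iInter.1 hs j).2 j le_rfl
  have h2 : Tendsto (fun I => volume (AI ρ κ J I)) atTop (𝓝 (volume (⋂ I, AI ρ κ J I))) := by
    refine tendsto_measure_iInter_atTop (fun I => (isClosed_AI hρ κ hJ I).measurableSet.nullMeasurableSet)
      ?_ ⟨0, ?_⟩
    · intro I I' hII s hs
      exact ⟨hs.1, fun j hj => hs.2 j (hj.trans hII)⟩
    · refine ne_top_of_le_ne_top ?_ (measure_mono (t := Icc (0 : ℝ) 1) fun s hs => hs.1)
      simp
  rw [h1] at h2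
  have h3 := h2.eventually_lt_const (ENNReal.ofReal_pos.2 hε)
  exact h3.exists

/-- the image in the circle -/
def KI (ρ κ : ℝ) (J : Set Circ) (I : ℕ) : Set Circ := (fun x : ℝ => (x : Circ)) '' AI ρ κ J I

lemma isClosed_KI {ρ : ℝ} (hρ : 1 < ρ) (κ : ℝ) {J : Set Circ} (hJ : IsOpen J) (I : ℕ) :
    IsClosed (KI ρ κ J I) := by
  have hc : IsCompact (AI ρ κ J I) :=
    isCompact_Icc.of_isClosed_subset (isClosed_AI hρ κ hJ I) fun s hs => hs.1
  exact (hc.image (AddCircle.continuous_mk' 1)).isClosed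

lemma volume_KI_le {ρ : ℝ} (hρ : 1 < ρ) (κ : ℝ) {J : Set Circ} (hJ : IsOpen J) (I : ℕ) :
    volume (KI ρ κ J I) ≤ volume (AI ρ κ J I) := by
  have hcl := isClosed_KI hρ κ hJ I
  have hp := UnitAddCircle.measurePreserving_mk (0 : ℝ)
  have h1 := hp.measure_preimage hcl.measurableSet.nullMeasurableSet
  rw [← h1, Measure.restrict_apply (hp.measurable hcl.measurableSet)]
  have h2 : (QuotientAddGroup.mk ⁻¹' KI ρ κ J I : Set ℝ) ∩ Ioc (0 : ℝ) (0 + 1) ⊆ AI ρ κ J I ∪ {1} := by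
    rintro x ⟨⟨s, hs, hsx⟩, hx0, hx1⟩
    have h3 : ((s - x : ℝ) : Circ) = 0 := by
      rw [AddCircle.coe_sub, sub_eq_zero]; exact hsx
    rw [AddCircle.coe_eq_zero_iff] at h3
    obtain ⟨n, hn⟩ := h3
    simp only [zsmul_eq_mul, mul_one] at hn
    have hs0 := hs.1.1
    have hs1 := hs.1.2
    have hn1 : n < 1 := by
      have : (n : ℝ) < 1 := by rw [hn]; linarith
      exact_mod_cast this
    have hn2 : -1 ≤ n := by
      have : (-1 : ℝ) ≤ n := by rw [hn]; linarith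
      exact_mod_cast this
    have hn3 : n = 0 ∨ n = -1 := by omega
    rcases hn3 with rfl | rfl
    · left
      have : x = s := by simp at hn; linarith
      rw [this]; exact hs
    · right
      simp only [mem_singleton_iff]
      push_cast at hn
      linarith
  calc volume _ ≤ volume (AI ρ κ J I ∪ {1}) := measure_mono h2
    _ ≤ volume (AI ρ κ J I) + volume ({1} : Set ℝ) := measure_union_le _ _
    _ = _ := by simp

/-- the position of a bad index -/
lemma bad_pos {p q : ℕ} (hp : 2 ≤ p) (hpq : p < q) (κ : ℝ) (J : Set Circ) (I m : ℕ) {r : ℝ}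
    (hr : 0 < r) (h1 : (m : ℝ) * Real.log p + Real.log r ≤ 0)
    (h2 : ((I : ℝ) + 2) * (Real.log q - Real.log p) ≤ m * Real.log q + Real.log r)
    (hbad : ∀ a b : ℕ, a + b = m → (((p : ℝ) ^ a * (q : ℝ) ^ b * (κ * r) : ℝ) : Circ) ∉ J) :
    ((Real.log r / (Real.log q - Real.log p) : ℝ) : Circ)
      + m • ((Real.log p / (Real.log q - Real.log p) : ℝ) : Circ)
      ∈ KI ((q : ℝ) / p) κ J I := by
  have hp1 : (1 : ℝ) < p := by exact_mod_cast (by omega : 1 < p)
  have hpq' : (p : ℝ) < q := by exact_mod_cast hpq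
  have hp0 : (0 : ℝ) < p := by linarith
  have hq0 : (0 : ℝ) < q := by linarith
  have hlp : 0 < Real.log p := Real.log_pos hp1
  set D : ℝ := Real.log q - Real.log p with hD
  have hD0 : 0 < D := by
    have := Real.log_lt_log hp0 hpq'
    rw [hD]; linarith
  have hρ0 : (0 : ℝ) < (q : ℝ) / p := by positivity
  have hlρ : Real.log ((q : ℝ) / p) = D := by
    rw [Real.log_div hq0.ne' hp0.ne']
  set s : ℝ := (m * Real.log p + Real.log r) / D with hs
  have hs0 : s ≤ 0 := div_nonpos_of_nonpos_of_nonneg h1 hD0.le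
  have hsI : (I : ℝ) + 2 ≤ s + m := by
    have : s + m = (m * Real.log q + Real.log r) / D := by
      rw [eq_div_iff hD0.ne', add_mul, hs, div_mul_cancel₀ _ hD0.ne', hD]; ring
    rw [this, le_div_iff₀ hD0]; exact h2
  rw [← AddCircle.coe_nsmul, ← AddCircle.coe_add]
  refine ⟨Int.fract s, ⟨⟨Int.fract_nonneg s, (Int.fract_lt_one s).le⟩, ?_⟩, ?_⟩
  · intro j hj
    have hfl : ⌊s⌋ ≤ 0 := by
      have : ((⌊s⌋ : ℤ) : ℝ) ≤ 0 := (Int.floor_le s).trans hs0
      exact_mod_cast this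
    obtain ⟨b, hb⟩ := Int.eq_ofNat_of_zero_le (a := (j : ℤ) - ⌊s⌋) (by omega)
    have hbr : (b : ℝ) = j - (⌊s⌋ : ℝ) := by
      have : ((b : ℤ) : ℝ) = (((j : ℤ) - ⌊s⌋ : ℤ) : ℝ) := by rw [hb]
      push_cast at this
      exact this
    have hjI : (j : ℝ) ≤ I := by exact_mod_cast hj
    have hbm : b ≤ m := by
      have h5 : (b : ℝ) < m := by
        have := Int.lt_floor_add_one s
        rw [hbr]; linarith
      have : b < m := by exact_mod_cast h5
      omega
    have h6 := hbad (m - b) b (by omega)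
    have h7 : κ * ((q : ℝ) / p) ^ (Int.fract s + (j : ℝ)) = (p : ℝ) ^ (m - b) * (q : ℝ) ^ b * (κ * r) := by
      have h8 : Int.fract s + (j : ℝ) = s + b := by
        rw [hbr, Int.fract]; ring
      rw [h8]
      have h9 : ((q : ℝ) / p) ^ (s + (b : ℝ)) = (p : ℝ) ^ (m - b) * (q : ℝ) ^ b * r := by
        apply Real.log_injOn_pos (mem_Ioi.2 (Real.rpow_pos_of_pos hρ0 _)) (mem_Ioi.2 (by positivity))
        rw [Real.log_rpow hρ0, hlρ, Real.log_mul (by positivity) hr.ne',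
          Real.log_mul (by positivity) (by positivity), Real.log_pow, Real.log_pow]
        have h10 : ((m - b : ℕ) : ℝ) = m - b := by
          rw [Nat.cast_sub hbm]
        rw [h10, hs, add_mul, div_mul_cancel₀ _ hD0.ne', hD]
        ring
      rw [h9]; ring
    rw [h7]; exact h6
  · have h5 : Real.log r / D + m • (Real.log p / D) = s := by
      rw [hs, nsmul_eq_mul]; field_simp; ring
    rw [h5]
    have h6 : (s : ℝ) = Int.fract s + (⌊s⌋ : ℝ) := (Int.fract_add_floor s).symm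
    conv_rhs => rw [h6, AddCircle.coe_add]
    have h7 : (((⌊s⌋ : ℝ) : ℝ) : Circ) = 0 := by
      rw [AddCircle.coe_eq_zero_iff]
      exact ⟨⌊s⌋, by simp⟩
    rw [h7, add_zero]

/-- the window for one sign -/
lemma win_sign (h : S_NULL) {p q : ℕ} (hp : 2 ≤ p) (hpq : p < q) (hi : MulIndep p q)
    {J : Set Circ} (hJ : IsOpen J) (hJn : J.Nonempty) {κ : ℝ} (hκ : κ ≠ 0) {η : ℝ} (hη : 0 < η)
    (K : ℕ) : ∃ δ : ℝ, 0 < δ ∧ ∀ r : ℝ, 0 < r → r < δ →
      ∃ n1 n2 : ℕ, K ≤ n1 ∧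
        (1 + (Real.log q - Real.log p) / (2 * Real.log p)) * n1 ≤ n2 ∧
        (({m : ℕ | n1 ≤ m ∧ m < n2 ∧ ∀ a b : ℕ, a + b = m →
          (((p : ℝ) ^ a * (q : ℝ) ^ b * (κ * r) : ℝ) : Circ) ∉ J}).ncard : ℝ) ≤ η * n2 := by
  have hp1 : (1 : ℝ) < p := by exact_mod_cast (by omega : 1 < p)
  have hpq' : (p : ℝ) < q := by exact_mod_cast hpq
  have hp0 : (0 : ℝ) < p := by linarith
  have hq0 : (0 : ℝ) < q := by linarith
  have hlp : 0 < Real.log p := Real.log_pos hp1
  have hlpq : Real.log p < Real.log q := Real.log_lt_log hp0 hpq'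
  have hρ : 1 < (q : ℝ) / p := by rw [lt_div_iff₀ hp0]; linarith
  obtain ⟨I, hI⟩ := exists_small h hρ hκ hJ hJn (ε := η / 4) (by positivity)
  obtain ⟨M₀, hM₀⟩ := uniform_window (order_alpha hp hpq hi) (isClosed_KI hρ κ hJ I)
    (ε := η / 4) (by positivity) ((volume_KI_le hρ κ hJ I).trans_lt hI)
  set a : ℝ := Real.log p with ha
  set b : ℝ := Real.log q with hb
  have hb0 : 0 < b := by linarith
  set c : ℝ := (b - a) / (2 * a) with hc
  have hc0 : 0 < c := by rw [hc]; apply div_pos <;> linarith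
  set B : ℝ := ((I : ℝ) + 2) * (b - a) with hB
  have hB0 : 0 ≤ B := by rw [hB]; apply mul_nonneg <;> [positivity; linarith]
  -- the logarithmic size
  set L₀ : ℝ := max (b * (K + M₀ / c + 1)) ((1 + c) * (B / b + 1) / ((b - a) / (2 * a * b))) with hL₀
  refine ⟨Real.exp (-L₀), Real.exp_pos _, ?_⟩
  intro r hr hrδ
  set L : ℝ := - Real.log r with hL
  have hLL : L₀ < L := by
    have h1 : Real.log r < -L₀ := by
      rw [← Real.log_exp (-L₀)]
      exact Real.log_lt_log hr hrδ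
    rw [hL]; linarith
  have hL1 : b * (K + M₀ / c + 1) < L := (le_max_left _ _).trans_lt hLL
  have hL2 : (1 + c) * (B / b + 1) / ((b - a) / (2 * a * b)) < L := (le_max_right _ _).trans_lt hLL
  have hMc : (0 : ℝ) ≤ M₀ / c := by positivity
  have hL0 : 0 < L := by
    refine lt_of_le_of_lt ?_ hL1
    positivity
  have hd : 0 < (b - a) / (2 * a * b) := by
    apply div_pos
    · linarith
    · positivity
  rw [div_lt_iff₀ hd] at hL2
  set n1 : ℕ := ⌈(L + B) / b⌉₊ with hn1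
  set n2 : ℕ := ⌊L / a⌋₊ + 1 with hn2
  have hn1l : (L + B) / b ≤ n1 := Nat.le_ceil _
  have hn1u : (n1 : ℝ) < (L + B) / b + 1 := Nat.ceil_lt_add_one (by positivity)
  have hn2l : L / a < n2 := by
    rw [hn2]; push_cast; exact Nat.lt_floor_add_one _
  have hKM : (K : ℝ) + M₀ / c + 1 < n1 := by
    have h1 : (K : ℝ) + M₀ / c + 1 < L / b := by
      rw [lt_div_iff₀ hb0]; linarith
    have h2 : L / b ≤ (L + B) / b := by gcongr; linarith
    linarith
  have hmain : (1 + c) * n1 ≤ n2 := by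
    have h1 : (1 + c) * n1 ≤ (1 + c) * ((L + B) / b + 1) := by
      apply mul_le_mul_of_nonneg_left hn1u.le; linarith
    have h2 : (1 + c) * ((L + B) / b + 1) = (1 + c) * (L / b) + (1 + c) * (B / b + 1) := by
      rw [add_div]; ring
    have h3 : (1 + c) * (L / b) + L * ((b - a) / (2 * a * b)) = L / a := by
      rw [hc]; field_simp; ring
    linarith
  refine ⟨n1, n2, ?_, hmain, ?_⟩
  · have : (K : ℝ) < n1 := by linarith
    have h2 : K < n1 := by exact_mod_cast this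
    omega
  · have hwin : n1 + M₀ ≤ n2 := by
      have h1 : (M₀ : ℝ) ≤ c * n1 := by
        have h2 : (M₀ : ℝ) / c ≤ n1 := by
          have : (0 : ℝ) ≤ K := by positivity
          linarith
        rw [div_le_iff₀ hc0] at h2
        linarith
      have h2 : ((n1 + M₀ : ℕ) : ℝ) ≤ n2 := by
        push_cast; nlinarith
      exact_mod_cast h2
    have h1 := hM₀ n1 n2 hwin ((Real.log r / (b - a) : ℝ) : Circ)
    have h2 : {m : ℕ | n1 ≤ m ∧ m < n2 ∧ ∀ a b : ℕ, a + b = m →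
          (((p : ℝ) ^ a * (q : ℝ) ^ b * (κ * r) : ℝ) : Circ) ∉ J}
        ⊆ {m : ℕ | n1 ≤ m ∧ m < n2 ∧ ((Real.log r / (b - a) : ℝ) : Circ)
          + m • ((a / (b - a) : ℝ) : Circ) ∈ KI ((q : ℝ) / p) κ J I} := by
      rintro m ⟨hm1, hm2, hm3⟩
      refine ⟨hm1, hm2, bad_pos hp hpq κ J I m hr ?_ ?_ hm3⟩
      · have h3 : m ≤ ⌊L / a⌋₊ := by omega
        have h4 : (m : ℝ) ≤ L / a := (Nat.cast_le.2 h3).trans (Nat.floor_le (by positivity))
        rw [le_div_iff₀ hlp] at h4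
        rw [hL] at h4
        linarith
      · have h3 : (n1 : ℝ) ≤ m := by exact_mod_cast hm1
        have h4 : (L + B) / b ≤ m := hn1l.trans h3
        rw [div_le_iff₀ hb0] at h4
        rw [hL, hB] at h4
        linarith
    have hfin : {m : ℕ | n1 ≤ m ∧ m < n2 ∧ ((Real.log r / (b - a) : ℝ) : Circ)
          + m • ((a / (b - a) : ℝ) : Circ) ∈ KI ((q : ℝ) / p) κ J I}.Finite :=
      (Set.finite_lt_nat n2).subset fun m hm => hm.2.1
    have h3 := Set.ncard_le_ncard h2 hfin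
    calc _ ≤ (({m : ℕ | n1 ≤ m ∧ m < n2 ∧ ((Real.log r / (b - a) : ℝ) : Circ)
          + m • ((a / (b - a) : ℝ) : Circ) ∈ KI ((q : ℝ) / p) κ J I}).ncard : ℝ) := by
          exact_mod_cast h3
      _ ≤ 4 * (η / 4) * n2 := h1
      _ = η * n2 := by ring

/-- Module A2. -/
theorem win (h : S_NULL) : S_WIN := by
  intro p q hp hpq hi J hJ hJn
  have hp1 : (1 : ℝ) < p := by exact_mod_cast (by omega : 1 < p)
  have hpq' : (p : ℝ) < q := by exact_mod_cast hpq
  have hlp : 0 < Real.log p := Real.log_pos hp1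
  have hlpq : Real.log p < Real.log q := Real.log_lt_log (by linarith) hpq'
  refine ⟨(Real.log q - Real.log p) / (2 * Real.log p), ?_, ?_⟩
  · apply div_pos <;> linarith
  intro η hη K
  obtain ⟨δ1, hδ1, h1⟩ := win_sign h hp hpq hi hJ hJn (κ := 1) one_ne_zero hη K
  obtain ⟨δ2, hδ2, h2⟩ := win_sign h hp hpq hi hJ hJn (κ := -1) (by norm_num) hη K
  refine ⟨min δ1 δ2, lt_min hδ1 hδ2, ?_⟩
  intro r hr hrδ
  rcases lt_or_gt_of_ne hr with hneg | hpos
  · have h3 : |r| = -r := abs_of_neg hneg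
    rw [h3] at hrδ
    obtain ⟨n1, n2, hK, hc, hcard⟩ := h2 (-r) (by linarith) (hrδ.trans_le (min_le_right _ _))
    refine ⟨n1, n2, hK, hc, ?_⟩
    have h4 : (-1 : ℝ) * -r = r := by ring
    rw [h4] at hcard
    exact hcard
  · have h3 : |r| = r := abs_of_pos hpos
    rw [h3] at hrδ
    obtain ⟨n1, n2, hK, hc, hcard⟩ := h1 r hpos (hrδ.trans_le (min_le_left _ _))
    refine ⟨n1, n2, hK, hc, ?_⟩
    rw [one_mul] at hcard
    exact hcard

end Pool.Agent.Zk63.RS45
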