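import Mathlib
import Pool.Agent.H705R2.Weyl
import Pool.Agent.H429R2.Auto

/-!
Digit sequences in base six and points of the circle.
-/

set_option autoImplicit false

open Filter Topology Set

namespace Pool.Agent.Zk63.RS45

open Pool.Agent.H705R2 Pool.Agent.H429R2.Auto

/-- the series with bounded numerators -/
noncomputable def ser (g : ℕ → ℝ) : ℝ := ∑' i : ℕ, g i / 6 ^ (i + 1)

lemma summable_ser {g : ℕ → ℝ} (h0 : ∀ i, 0 ≤ g i) (h5 : ∀ i, g i ≤ 15) :
    Summable fun i : ℕ => g i / 6 ^ (i + 1) := by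
  have hs : Summable fun i : ℕ => (15 / 6 : ℝ) * (1 / 6) ^ i :=
    (summable_geometric_of_lt_one (by norm_num) (by norm_num)).mul_left _
  refine Summable.of_nonneg_of_le (fun i => div_nonneg (h0 i) (by positivity)) (fun i => ?_) hs
  have h1 : g i / 6 ^ (i + 1) ≤ 15 / 6 ^ (i + 1) := by
    have : (0 : ℝ) < 6 ^ (i + 1) := by positivity
    exact div_le_div_of_nonneg_right (h5 i) this.le
  calc g i / 6 ^ (i + 1) ≤ 15 / 6 ^ (i + 1) := h1
    _ = (15 / 6 : ℝ) * (1 / 6) ^ i := by rw [pow_succ, one_div, inv_pow]; field_simp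

lemma ser_succ {g : ℕ → ℝ} (h0 : ∀ i, 0 ≤ g i) (h5 : ∀ i, g i ≤ 15) :
    ser g = (g 0 + ser (fun i => g (i + 1))) / 6 := by
  unfold ser
  rw [(summable_ser h0 h5).tsum_eq_zero_add, add_div, ← tsum_div_const]
  congr 1
  · simp
  · refine tsum_congr fun i => ?_
    rw [pow_succ (6 : ℝ) (i + 1), div_div]

lemma ser_add {g h : ℕ → ℝ} (g0 : ∀ i, 0 ≤ g i) (g5 : ∀ i, g i ≤ 15) (h0 : ∀ i, 0 ≤ h i)
    (h5 : ∀ i, h i ≤ 15) : ser (fun i => g i + h i) = ser g + ser h := by
  unfold ser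
  rw [← (summable_ser g0 g5).tsum_add (summable_ser h0 h5)]
  refine tsum_congr fun i => ?_
  rw [add_div]

lemma ser_mul (c : ℝ) (g : ℕ → ℝ) : ser (fun i => c * g i) = c * ser g := by
  unfold ser
  rw [← tsum_mul_left]
  refine tsum_congr fun i => ?_
  rw [mul_div_assoc]

/-- the number with the given digits -/
noncomputable def S (d : ℕ → Fin 6) : ℝ := ser fun i => ((d i : ℕ) : ℝ)

/-- the shifted sequence -/
def sh (d : ℕ → Fin 6) : ℕ → Fin 6 := fun i => d (i + 1)

lemma dig0 (d : ℕ → Fin 6) (i : ℕ) : (0 : ℝ) ≤ ((d i : ℕ) : ℝ) := Nat.cast_nonneg _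

lemma dig5 (d : ℕ → Fin 6) (i : ℕ) : ((d i : ℕ) : ℝ) ≤ 5 := by
  have := (d i).isLt
  exact_mod_cast (by omega : (d i : ℕ) ≤ 5)

lemma dig15 (d : ℕ → Fin 6) (i : ℕ) : ((d i : ℕ) : ℝ) ≤ 15 := (dig5 d i).trans (by norm_num)

lemma S_succ (d : ℕ → Fin 6) : S d = ((d 0 : ℕ) + S (sh d)) / 6 := ser_succ (dig0 d) (dig15 d)

lemma S_nonneg (d : ℕ → Fin 6) : 0 ≤ S d := tsum_nonneg fun i => div_nonneg (dig0 d i) (by positivity)

lemma ser_five : ser (fun _ => (5 : ℝ)) = 1 := by
  unfold ser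
  have h1 : ∀ i : ℕ, (5 : ℝ) / 6 ^ (i + 1) = 5 / 6 * (1 / 6) ^ i := by
    intro i; rw [pow_succ, one_div, inv_pow]; field_simp
  simp_rw [h1]
  rw [tsum_mul_left, tsum_geometric_of_lt_one (by norm_num) (by norm_num)]
  norm_num

lemma S_le_one (d : ℕ → Fin 6) : S d ≤ 1 := by
  rw [← ser_five]
  refine (summable_ser (dig0 d) (dig15 d)).tsum_le_tsum (fun i => ?_)
    (summable_ser (fun _ => by norm_num) (fun _ => by norm_num))
  exact div_le_div_of_nonneg_right (dig5 d i) (by positivity)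

/-- the point of the circle -/
noncomputable def pt (d : ℕ → Fin 6) : Circ := (S d : ℝ)

lemma coe_int (n : ℤ) : ((n : ℝ) : Circ) = 0 := by
  rw [AddCircle.coe_eq_zero_iff]; exact ⟨n, by simp⟩

lemma coe_nat (n : ℕ) : ((n : ℝ) : Circ) = 0 := by
  have := coe_int n
  push_cast at this
  exact this

lemma six_pt (d : ℕ → Fin 6) : 6 • pt d = pt (sh d) := by
  unfold pt
  rw [← AddCircle.coe_nsmul, S_succ d]
  have h : (6 : ℕ) • (((d 0 : ℕ) + S (sh d)) / 6 : ℝ) = ((d 0 : ℕ) : ℝ) + S (sh d) := by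
    rw [nsmul_eq_mul]; push_cast; ring
  rw [h, AddCircle.coe_add, coe_nat, zero_add]

/-- multiplication by three -/
def m3 (d : ℕ → Fin 6) : ℕ → Fin 6 := fun i => f (d i) (d (i + 1))

lemma three_pt (d : ℕ → Fin 6) : 3 • pt d = pt (m3 d) := by
  unfold pt
  rw [← AddCircle.coe_nsmul]
  set c : ℕ → ℝ := fun i => (((3 * (d i : ℕ)) / 6 : ℕ) : ℝ) with hc
  set r : ℕ → ℝ := fun i => (((3 * (d i : ℕ)) % 6 : ℕ) : ℝ) with hr
  have hc0 : ∀ i, 0 ≤ c i := fun i => Nat.cast_nonneg _
  have hr0 : ∀ i, 0 ≤ r i := fun i => Nat.cast_nonneg _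
  have hc2 : ∀ i, c i ≤ 2 := by
    intro i
    have := (d i).isLt
    simp only [hc]
    exact_mod_cast (by omega : (3 * (d i : ℕ)) / 6 ≤ 2)
  have hr5 : ∀ i, r i ≤ 5 := by
    intro i
    simp only [hr]
    exact_mod_cast (by omega : (3 * (d i : ℕ)) % 6 ≤ 5)
  have h1 : ∀ i, (3 : ℝ) * ((d i : ℕ) : ℝ) = 6 * c i + r i := by
    intro i
    simp only [hc, hr]
    have := Nat.div_add_mod (3 * (d i : ℕ)) 6
    exact_mod_cast this.symm
  have h2 : 3 * S d = 6 * ser c + ser r := by
    unfold S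
    rw [← ser_mul, ← ser_mul, ← ser_add]
    · congr 1; ext i; exact h1 i
    · intro i; have := hc0 i; positivity
    · intro i; have := hc2 i; linarith
    · exact hr0
    · intro i; have := hr5 i; linarith
  have h3 : 6 * ser c = c 0 + ser (fun i => c (i + 1)) := by
    rw [ser_succ hc0 (fun i => (hc2 i).trans (by norm_num))]; ring
  have h4 : S (m3 d) = ser (fun i => c (i + 1)) + ser r := by
    unfold S
    rw [← ser_add (fun i => hc0 _) (fun i => (hc2 _).trans (by norm_num)) hr0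
      (fun i => (hr5 i).trans (by norm_num))]
    congr 1; ext i
    simp only [m3, f, hc, hr]
    push_cast
    ring
  have h5 : (3 : ℕ) • S d = ((3 * (d 0 : ℕ) / 6 : ℕ) : ℝ) + S (m3 d) := by
    rw [nsmul_eq_mul, h4]
    have : ((3 : ℕ) : ℝ) = 3 := by norm_num
    rw [this, h2, h3]
    simp only [hc]
    ring
  rw [h5, AddCircle.coe_add, coe_nat, zero_add]

/-- the open arc of the points with first digit `a` -/
def A (a : Fin 6) : Set Circ :=
  (fun r : ℝ => (r : Circ)) '' Ioo (((a : ℕ) : ℝ) / 6) ((((a : ℕ) : ℝ) + 1) / 6)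

lemma isOpen_A (a : Fin 6) : IsOpen (A a) := QuotientAddGroup.isOpenMap_coe _ isOpen_Ioo

lemma digit_of_mem {d : ℕ → Fin 6} {a : Fin 6} (h : pt d ∈ A a) : d 0 = a := by
  obtain ⟨ρ, ⟨h1, h2⟩, h3⟩ := h
  simp only at h3
  unfold pt at h3
  have h4 : ((S d - ρ : ℝ) : Circ) = 0 := by rw [AddCircle.coe_sub, h3, sub_self]
  rw [AddCircle.coe_eq_zero_iff] at h4
  obtain ⟨l, hl⟩ := h4
  rw [zsmul_eq_mul, mul_one] at hl
  have ha := dig0 (fun _ => a) 0
  have ha5 := dig5 (fun _ => a) 0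
  have hS0 := S_nonneg d
  have hS1 := S_le_one d
  have hρ0 : 0 < ρ := lt_of_le_of_lt (by positivity) h1
  have hρ1 : ρ < 1 := lt_of_lt_of_le h2 (by rw [div_le_one (by norm_num)]; linarith)
  have hl1 : l < 1 := by
    have : (l : ℝ) < 1 := by rw [hl]; linarith
    exact_mod_cast this
  have hl2 : -1 < l := by
    have : (-1 : ℝ) < l := by rw [hl]; linarith
    exact_mod_cast this
  have hl0 : l = 0 := by omega
  rw [hl0] at hl
  push_cast at hl
  have hρ : S d = ρ := by linarith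
  have hs := S_succ d
  have hsh0 := S_nonneg (sh d)
  have hsh1 := S_le_one (sh d)
  rw [div_lt_iff₀ (by norm_num)] at h1
  rw [lt_div_iff₀ (by norm_num)] at h2
  rw [eq_div_iff (by norm_num)] at hs
  rw [← hρ] at h1 h2
  have e1 : ((d 0 : ℕ) : ℝ) < (a : ℕ) + 1 := by linarith
  have e2 : ((a : ℕ) : ℝ) < (d 0 : ℕ) + 1 := by linarith
  have e3 : (d 0 : ℕ) < (a : ℕ) + 1 := by exact_mod_cast e1
  have e4 : (a : ℕ) < (d 0 : ℕ) + 1 := by exact_mod_cast e2
  exact Fin.ext (by omega)

/-- a point whose images lie in prescribed arcs -/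
lemma exists_pt (L : ℕ) : ∀ d : ℕ → Fin 6, ∃ v : ℝ, 0 < v ∧ v < 1 ∧
    ∀ t < L, 6 ^ t • (v : Circ) ∈ A (d t) := by
  induction L with
  | zero => intro d; exact ⟨1 / 2, by norm_num, by norm_num, fun t ht => by omega⟩
  | succ L ih =>
    intro d
    obtain ⟨v, hv0, hv1, hv⟩ := ih (sh d)
    have ha := dig0 d 0
    have ha5 := dig5 d 0
    refine ⟨((d 0 : ℕ) + v) / 6, by positivity, ?_, ?_⟩
    · rw [div_lt_one (by norm_num)]; linarith
    · intro t ht
      rcases t with _ | t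
      · rw [pow_zero, one_smul]
        refine ⟨((d 0 : ℕ) + v) / 6, ⟨?_, ?_⟩, rfl⟩
        · exact div_lt_div_of_pos_right (by linarith) (by norm_num)
        · exact div_lt_div_of_pos_right (by linarith) (by norm_num)
      · have h1 : 6 ^ (t + 1) • (((((d 0 : ℕ) : ℝ) + v) / 6 : ℝ) : Circ) = 6 ^ t • (v : Circ) := by
          rw [pow_succ, mul_smul, ← AddCircle.coe_nsmul]
          have h : (6 : ℕ) • ((((d 0 : ℕ) : ℝ) + v) / 6 : ℝ) = ((d 0 : ℕ) : ℝ) + v := by
            rw [nsmul_eq_mul]; push_cast; ring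
          rw [h, AddCircle.coe_add, coe_nat, zero_add]
        rw [h1]
        exact hv t (by omega)

/-- `S d = 0` only for the zero sequence -/
lemma eq_zero_of_S {d : ℕ → Fin 6} (h : S d = 0) : ∀ i, d i = 0 := by
  intro i
  induction i generalizing d with
  | zero =>
    have h1 := S_succ d
    rw [h] at h1
    have h2 := S_nonneg (sh d)
    have h3 := dig0 d 0
    have h4 : ((d 0 : ℕ) : ℝ) = 0 := by linarith
    have h5 : (d 0 : ℕ) = 0 := by exact_mod_cast h4
    exact Fin.ext h5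
  | succ i ih =>
    have h1 := S_succ d
    rw [h] at h1
    have h2 := S_nonneg (sh d)
    have h3 := dig0 d 0
    exact ih (d := sh d) (by linarith)

/-- `S d = 1` only for the sequence of fives -/
lemma eq_five_of_S {d : ℕ → Fin 6} (h : S d = 1) : ∀ i, d i = 5 := by
  intro i
  induction i generalizing d with
  | zero =>
    have h1 := S_succ d
    rw [h] at h1
    have h2 := S_le_one (sh d)
    have h3 := dig5 d 0
    have h4 : ((d 0 : ℕ) : ℝ) = 5 := by linarith
    have h5 : (d 0 : ℕ) = 5 := by exact_mod_cast h4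
    exact Fin.ext h5
  | succ i ih =>
    have h1 := S_succ d
    rw [h] at h1
    have h2 := S_le_one (sh d)
    have h3 := dig5 d 0
    exact ih (d := sh d) (by linarith)

/-- if `pt d = 0` then all digits are zero or all digits are five -/
lemma pt_zero {d : ℕ → Fin 6} (h : pt d = 0) : (∀ i, d i = 0) ∨ (∀ i, d i = 5) := by
  unfold pt at h
  rw [AddCircle.coe_eq_zero_iff] at h
  obtain ⟨l, hl⟩ := h
  rw [zsmul_eq_mul, mul_one] at hl
  have h0 := S_nonneg d
  have h1 := S_le_one d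
  have hl1 : l ≤ 1 := by
    have : (l : ℝ) ≤ 1 := by rw [hl]; linarith
    exact_mod_cast this
  have hl0 : 0 ≤ l := by
    have : (0 : ℝ) ≤ l := by rw [hl]; linarith
    exact_mod_cast this
  have : l = 0 ∨ l = 1 := by omega
  rcases this with rfl | rfl
  · left; exact eq_zero_of_S (by push_cast at hl; linarith)
  · right; exact eq_five_of_S (by push_cast at hl; linarith)

/-- the first digits of two expansions of a point agree, or six times the point is zero -/
lemma first_digit {d d' : ℕ → Fin 6} (h : pt d = pt d') : d 0 = d' 0 ∨ 6 • pt d = 0 := by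
  unfold pt at h
  have h4 : ((S d - S d' : ℝ) : Circ) = 0 := by rw [AddCircle.coe_sub, h, sub_self]
  rw [AddCircle.coe_eq_zero_iff] at h4
  obtain ⟨l, hl⟩ := h4
  rw [zsmul_eq_mul, mul_one] at hl
  have h0 := S_nonneg d
  have h1 := S_le_one d
  have h0' := S_nonneg d'
  have h1' := S_le_one d'
  have key : ∀ e e' : ℕ → Fin 6, S e = S e' → (e 0 : ℕ) < (e' 0 : ℕ) → S (sh e) = 1 := by
    intro e e' hee hlt
    have a1 := S_succ e
    have a2 := S_succ e'
    have b1 := S_le_one (sh e)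
    have b2 := S_nonneg (sh e')
    have c1 : ((e 0 : ℕ) : ℝ) + 1 ≤ (e' 0 : ℕ) := by exact_mod_cast hlt
    rw [hee] at a1
    rw [a1] at a2
    have a3 : ((e 0 : ℕ) : ℝ) + S (sh e) = (e' 0 : ℕ) + S (sh e') := by linarith
    linarith
  have hl1 : l ≤ 1 := by
    have : (l : ℝ) ≤ 1 := by rw [hl]; linarith
    exact_mod_cast this
  have hl0 : -1 ≤ l := by
    have : (-1 : ℝ) ≤ l := by rw [hl]; linarith
    exact_mod_cast this
  have : l = 0 ∨ l = 1 ∨ l = -1 := by omega
  rcases this with rfl | rfl | rfl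
  · have hS : S d = S d' := by push_cast at hl; linarith
    rcases lt_trichotomy (d 0 : ℕ) (d' 0 : ℕ) with hlt | heq | hgt
    · right
      rw [six_pt]
      unfold pt
      rw [key d d' hS hlt]
      exact_mod_cast coe_nat 1
    · left; exact Fin.ext heq
    · right
      have h5 : pt d = pt d' := h
      rw [h5, six_pt]
      unfold pt
      rw [key d' d hS.symm hgt]
      exact_mod_cast coe_nat 1
  · right
    have h5 : S d = 1 := by push_cast at hl; linarith
    unfold pt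
    rw [h5]
    have : ((1 : ℝ) : Circ) = 0 := by exact_mod_cast coe_nat 1
    rw [this, smul_zero]
  · right
    have h5 : S d = 0 := by push_cast at hl; linarith
    unfold pt
    rw [h5]
    simp

lemma pt_sh_eq {d d' : ℕ → Fin 6} (h : pt d = pt d') : pt (sh d) = pt (sh d') := by
  rw [← six_pt, ← six_pt, h]

/-- two expansions of a point no power of six times which is zero agree -/
lemma digits_eq {d d' : ℕ → Fin 6} (h : pt d = pt d') (h6 : ∀ k : ℕ, 6 ^ k • pt d ≠ 0) : d = d' := by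
  have key : ∀ i : ℕ, ∀ d d' : ℕ → Fin 6, pt d = pt d' → (∀ k : ℕ, 6 ^ k • pt d ≠ 0) → d i = d' i := by
    intro i
    induction i with
    | zero =>
      intro d d' h h6
      rcases first_digit h with h1 | h1
      · exact h1
      · exact absurd (by simpa using h1) (h6 1)
    | succ i ih =>
      intro d d' h h6
      refine ih (sh d) (sh d') (pt_sh_eq h) (fun k hk => h6 (k + 1) ?_)
      rw [pow_succ, mul_smul, six_pt]; exact hk
  funext i
  exact key i d d' h h6

end Pool.Agent.Zk63.RS45
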