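import Mathlib
import Pool.Agent.Zk63.RS45.Dig
import Pool.Agent.Zk45.RS.Stm2

/-!
Invariant sets of the automaton: from the points of the circle to configurations.
-/

set_option autoImplicit false

open MeasureTheory Filter Topology Set

namespace Pool.Agent.Zk63.RS45

open Pool.Agent.H705R2 Pool.Agent.H429R2.Auto Pool.Agent.Zk45.RS

/-- the digits of a configuration from the position `q` on -/
def dig (q : ℤ) (x : Conf) : ℕ → Fin 6 := fun i => x (q + i)

/-- the point of the circle -/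
noncomputable def pi (q : ℤ) (x : Conf) : Circ := pt (dig q x)

lemma sh_dig (q : ℤ) (x : Conf) : sh (dig q x) = dig (q + 1) x := by
  funext i
  simp only [sh, dig]
  congr 1
  push_cast
  ring

lemma six_pi (q : ℤ) (x : Conf) : 6 • pi q x = pi (q + 1) x := by
  unfold pi
  rw [six_pt, sh_dig]

lemma six_pow_pi (q : ℤ) (x : Conf) (k : ℕ) : 6 ^ k • pi q x = pi (q + k) x := by
  induction k with
  | zero => simp
  | succ k ih =>
    rw [pow_succ', mul_smul, ih, six_pi]
    congr 1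
    push_cast
    ring

lemma three_pi (q : ℤ) (x : Conf) : 3 • pi q x = pi q (mul3 x) := by
  unfold pi
  rw [three_pt]
  congr 1
  funext i
  simp only [m3, dig, mul3]
  congr 1
  congr 1
  push_cast
  ring

lemma shift_pi (q : ℤ) (x : Conf) : pi q (shiftR x) = pi (q - 1) x := by
  unfold pi
  congr 1
  funext i
  simp only [dig, shiftR]
  congr 1
  ring

lemma two_pi (q : ℤ) (x : Conf) : 2 • pi q (F x) = 3 • pi q x := by
  unfold F
  rw [← three_pi, ← three_pi, shift_pi, ← mul_smul, ← mul_smul]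
  have h := six_pi (q - 1) x
  rw [sub_add_cancel] at h
  rw [← h, ← mul_smul]
  norm_num

lemma two_pi_iter (q : ℤ) (x : Conf) (k : ℕ) : 2 ^ k • pi q (F^[k] x) = 3 ^ k • pi q x := by
  induction k with
  | zero => simp
  | succ k ih =>
    rw [Function.iterate_succ_apply', pow_succ, mul_smul, two_pi, smul_comm, ih, ← mul_smul, pow_succ, mul_comm]

/-- finitely many points force torsion of order prime to six -/
lemma torsion {X : Set Conf} (hX : F '' X = X) (q : ℤ) (hfin : (pi q '' X).Finite) :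
    ∃ m : ℕ, Nat.Coprime m 6 ∧ ∀ x ∈ X, m • pi q x = 0 := by
  have hF : ∀ x ∈ X, F x ∈ X := fun x hx => by rw [← hX]; exact ⟨x, hx, rfl⟩
  have hFk : ∀ k : ℕ, ∀ x ∈ X, F^[k] x ∈ X := by
    intro k
    induction k with
    | zero => intro x hx; simpa using hx
    | succ k ih => intro x hx; rw [Function.iterate_succ_apply]; exact ih _ (hF x hx)
  have hBk : ∀ k : ℕ, ∀ x ∈ X, ∃ y ∈ X, F^[k] y = x := by
    intro k
    induction k with
    | zero => intro x hx; exact ⟨x, hx, rfl⟩
    | succ k ih =>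
      intro x hx
      obtain ⟨y, hy, hyx⟩ := ih x hx
      rw [← hX] at hy
      obtain ⟨z, hz, hzy⟩ := hy
      exact ⟨z, hz, by rw [Function.iterate_succ_apply, hzy, hyx]⟩
  -- every point is torsion
  have h1 : ∀ z ∈ pi q '' X, ∃ M : ℕ, 0 < M ∧ M • z = 0 := by
    rintro z ⟨x, hx, rfl⟩
    have hninj : ¬ Set.InjOn (fun n : ℕ => pi q (F^[n] x)) Set.univ := by
      intro hinj
      have hmaps : Set.MapsTo (fun n : ℕ => pi q (F^[n] x)) Set.univ (pi q '' X) :=
        fun n _ => ⟨_, hFk n x hx, rfl⟩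
      exact Set.infinite_of_injOn_mapsTo hinj hmaps Set.infinite_univ hfin
    rw [Set.injOn_univ, Function.Injective] at hninj
    push Not at hninj
    obtain ⟨a, b, hab, hne⟩ := hninj
    have key : ∀ a b : ℕ, pi q (F^[a] x) = pi q (F^[b] x) → a < b → ∃ M : ℕ, 0 < M ∧ M • pi q x = 0 := by
      intro a b hab hlt
      obtain ⟨k, rfl⟩ : ∃ k, b = a + (k + 1) := ⟨b - a - 1, by omega⟩
      have e1 := two_pi_iter q (F^[a] x) (k + 1)
      rw [← Function.iterate_add_apply, add_comm (k + 1) a, ← hab] at e1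
      -- (3 ^ (k+1) - 2 ^ (k+1)) z_a = 0
      have hlt2 : 2 ^ (k + 1) < 3 ^ (k + 1) := Nat.pow_lt_pow_left (by norm_num) (by omega)
      have e2 : (3 ^ (k + 1) - 2 ^ (k + 1)) • pi q (F^[a] x) = 0 := by
        have h3 : 3 ^ (k + 1) • pi q (F^[a] x)
            = (3 ^ (k + 1) - 2 ^ (k + 1)) • pi q (F^[a] x) + 2 ^ (k + 1) • pi q (F^[a] x) := by
          rw [← add_smul, Nat.sub_add_cancel hlt2.le]
        rw [← e1] at h3
        exact right_eq_add.1 h3
      have e3 := two_pi_iter q x a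
      refine ⟨(3 ^ (k + 1) - 2 ^ (k + 1)) * 3 ^ a, Nat.mul_pos (by omega) (by positivity), ?_⟩
      rw [mul_smul, ← e3, smul_comm, e2, smul_zero]
    rcases lt_or_gt_of_ne hne with h | h
    · exact key a b hab h
    · exact key b a hab.symm h
  choose! M hM0 hM using h1
  set P : ℕ := ∏ z ∈ hfin.toFinset, M z with hP
  have hP0 : P ≠ 0 := Finset.prod_ne_zero_iff.2 fun z hz => (hM0 z (hfin.mem_toFinset.1 hz)).ne'
  have hPz : ∀ x ∈ X, P • pi q x = 0 := by
    intro x hx
    have hz : pi q x ∈ pi q '' X := ⟨x, hx, rfl⟩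
    obtain ⟨c, hc⟩ := Finset.dvd_prod_of_mem M (hfin.mem_toFinset.2 hz)
    rw [← hP] at hc
    rw [hc, mul_comm, mul_smul, hM _ hz, smul_zero]
  obtain ⟨a, P', hP'2, hPa⟩ := Nat.exists_eq_pow_mul_and_not_dvd hP0 2 (by norm_num)
  have hP'0 : P' ≠ 0 := by rintro rfl; simp at hPa; exact hP0 hPa
  obtain ⟨b, m, hm3, hPb⟩ := Nat.exists_eq_pow_mul_and_not_dvd hP'0 3 (by norm_num)
  have hm2 : ¬ 2 ∣ m := fun h => hP'2 (by rw [hPb]; exact h.mul_left _)
  have hcop : Nat.Coprime m 6 := by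
    rw [show 6 = 2 * 3 by norm_num]
    refine Nat.Coprime.mul_right ?_ ?_
    · exact ((Nat.Prime.coprime_iff_not_dvd Nat.prime_two).2 hm2).symm
    · exact ((Nat.Prime.coprime_iff_not_dvd Nat.prime_three).2 hm3).symm
  refine ⟨m, hcop, ?_⟩
  intro x hx
  -- forwards
  have f1 : (3 ^ (a + b) * m) • pi q x = 0 := by
    have e1 := two_pi_iter q x a
    have e2 := hPz _ (hFk a x hx)
    rw [hPa, hPb] at e2
    have e3 : (3 ^ (a + b) * m) • pi q x = (3 ^ b * m) • (3 ^ a • pi q x) := by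
      rw [← mul_smul]; congr 1; ring
    rw [e3, ← e1, ← mul_smul, ← e2]
    congr 1
    ring
  have f2 : (2 ^ (a + b) * m) • pi q x = 0 := by
    obtain ⟨y, hy, hyx⟩ := hBk b x hx
    have e1 := two_pi_iter q y b
    rw [hyx] at e1
    have e2 := hPz _ hy
    rw [hPa, hPb] at e2
    have e3 : (2 ^ (a + b) * m) • pi q x = (2 ^ a * m) • (2 ^ b • pi q x) := by
      rw [← mul_smul]; congr 1; ring
    rw [e3, e1, ← mul_smul, ← e2]
    congr 1
    ring
  have g1 := addOrderOf_dvd_iff_nsmul_eq_zero.2 f1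
  have g2 := addOrderOf_dvd_iff_nsmul_eq_zero.2 f2
  apply addOrderOf_dvd_iff_nsmul_eq_zero.1
  have g3 := Nat.dvd_gcd g1 g2
  rw [Nat.gcd_mul_right] at g3
  have g4 : Nat.gcd (3 ^ (a + b)) (2 ^ (a + b)) = 1 := by
    apply Nat.Coprime.pow
    norm_num
  rwa [g4, one_mul] at g3

lemma eq_zero_of_coprime {z : Circ} {m : ℕ} (hm : Nat.Coprime m 6) (h : m • z = 0) (k : ℕ)
    (hk : 6 ^ k • z = 0) : z = 0 := by
  have g1 := addOrderOf_dvd_iff_nsmul_eq_zero.2 h
  have g2 := addOrderOf_dvd_iff_nsmul_eq_zero.2 hk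
  have g3 := Nat.dvd_gcd g1 g2
  have g4 : Nat.gcd m (6 ^ k) = 1 := Nat.Coprime.pow_right k hm
  rw [g4, Nat.dvd_one, AddMonoid.addOrderOf_eq_one_iff] at g3
  exact g3

/-- finiteness goes to the left -/
lemma finite_left {X : Set Conf} (q : ℤ) (k : ℕ) (hfin : (pi (q + k) '' X).Finite) :
    (pi q '' X).Finite := by
  have h1 : pi q '' X ⊆ (fun z : Circ => 6 ^ k • z) ⁻¹' (pi (q + k) '' X) := by
    rintro z ⟨x, hx, rfl⟩
    exact ⟨x, hx, (six_pow_pi q x k).symm⟩
  refine Set.Finite.subset (hfin.preimage' fun b _ => ?_) h1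
  by_cases hne : ∃ u : Circ, 6 ^ k • u = b
  · obtain ⟨u, hu⟩ := hne
    have h2 : (fun z : Circ => 6 ^ k • z) ⁻¹' {b} ⊆ (fun z => u + z) '' {z : Circ | 6 ^ k • z = 0} := by
      intro z hz
      simp only [mem_preimage, mem_singleton_iff] at hz
      refine ⟨z - u, ?_, by simp⟩
      simp only [mem_ofPred_eq]
      rw [smul_sub, hz, hu, sub_self]
    exact ((AddCircle.finite_torsion (p := (1 : ℝ)) (by positivity)).image _).subset h2
  · have h2 : (fun z : Circ => 6 ^ k • z) ⁻¹' {b} = ∅ := by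
      ext z
      simp only [mem_preimage, mem_singleton_iff, mem_empty_iff_false, iff_false]
      exact fun h => hne ⟨z, h⟩
    rw [h2]; exact Set.finite_empty

/-- the number of points does not grow to the left -/
lemma ncard_left {X : Set Conf} (hX : F '' X = X) (q : ℤ) (k : ℕ)
    (hfin : (pi (q + k) '' X).Finite) : (pi q '' X).ncard ≤ (pi (q + k) '' X).ncard := by
  obtain ⟨m, hm, hmz⟩ := torsion hX q (finite_left q k hfin)
  refine Set.ncard_le_ncard_of_injOn (fun z : Circ => 6 ^ k • z) ?_ ?_ hfin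
  · rintro z ⟨x, hx, rfl⟩
    exact ⟨x, hx, (six_pow_pi q x k).symm⟩
  · rintro z ⟨x, hx, rfl⟩ z' ⟨x', hx', rfl⟩ h
    simp only at h
    rw [← sub_eq_zero]
    refine eq_zero_of_coprime hm ?_ k ?_
    · rw [smul_sub, hmz x hx, hmz x' hx', sub_self]
    · rw [smul_sub, h, sub_self]

/-- the digits from `q` on are determined by the point and one digit -/
lemma dig_eq {X : Set Conf} (hX : F '' X = X) (q : ℤ) (hfin : (pi q '' X).Finite) {x y : Conf}
    (hx : x ∈ X) (h : pi q x = pi q y) (h0 : (x q = 0) ↔ (y q = 0)) :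
    ∀ i : ℤ, q ≤ i → x i = y i := by
  obtain ⟨m, hm, hmz⟩ := torsion hX q hfin
  have key : dig q x = dig q y := by
    by_cases hz : pi q x = 0
    · have hz' : pi q y = 0 := by rw [← h]; exact hz
      have e1 : dig q x 0 = x q := by simp [dig]
      have e2 : dig q y 0 = y q := by simp [dig]
      have n5 : (5 : Fin 6) ≠ 0 := by decide
      rcases pt_zero hz with h1 | h1 <;> rcases pt_zero hz' with h2 | h2
      · funext i; rw [h1 i, h2 i]
      · exfalso
        have a1 := h1 0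
        have a2 := h2 0
        rw [e1] at a1; rw [e2] at a2
        have := h0.1 a1
        rw [a2] at this
        exact n5 this
      · exfalso
        have a1 := h1 0
        have a2 := h2 0
        rw [e1] at a1; rw [e2] at a2
        have := h0.2 a2
        rw [a1] at this
        exact n5 this
      · funext i; rw [h1 i, h2 i]
    · exact digits_eq h fun k hk => hz (eq_zero_of_coprime hm (hmz x hx) k hk)
  intro i hi
  obtain ⟨n, hn⟩ := Int.eq_ofNat_of_zero_le (sub_nonneg.2 hi)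
  have h2 := congrFun key n
  simp only [dig] at h2
  have h3 : q + (n : ℤ) = i := by
    have : i - q = (n : ℤ) := hn
    omega
  rwa [h3] at h2

/-- an infinite invariant set has infinitely many points -/
lemma infinite_pts {X : Set Conf} (hX : F '' X = X) (hinf : X.Infinite) (p : ℤ) :
    (pi p '' X).Infinite := by
  classical
  intro hfin
  set N : ℕ := (pi p '' X).ncard with hN
  obtain ⟨Y, hYX, hYc⟩ := hinf.exists_subset_card_eq (2 * N + 1)
  -- a position to the left which separates the elements of `Y`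
  have hsep : ∀ x ∈ Y, ∀ y ∈ Y, ∀ᶠ k : ℕ in atTop, x ≠ y → ∃ i : ℤ, p - k ≤ i ∧ x i ≠ y i := by
    intro x _ y _
    by_cases hxy : x = y
    · exact Filter.Eventually.of_forall fun k h => absurd hxy h
    · obtain ⟨i, hi⟩ := Function.ne_iff.1 hxy
      filter_upwards [eventually_ge_atTop (p - i).toNat] with k hk _
      exact ⟨i, by omega, hi⟩
  have hall : ∀ᶠ k : ℕ in atTop, ∀ x ∈ Y, ∀ y ∈ Y, x ≠ y → ∃ i : ℤ, p - k ≤ i ∧ x i ≠ y i := by
    rw [Filter.eventually_all_finset]
    intro x hx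
    rw [Filter.eventually_all_finset]
    intro y hy
    exact hsep x hx y hy
  obtain ⟨k, hk⟩ := hall.exists
  set q : ℤ := p - k with hq
  have hpq : p = q + k := by rw [hq]; ring
  have hfin' : (pi (q + k) '' X).Finite := by rw [← hpq]; exact hfin
  have hfq : (pi q '' X).Finite := finite_left q k hfin'
  have hcard : (pi q '' X).ncard ≤ N := by
    rw [hN]
    conv_rhs => rw [hpq]
    exact ncard_left hX q k hfin'
  have hmap : Set.MapsTo (fun x : Conf => (pi q x, decide (x q = 0))) (Y : Set Conf)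
      ((hfq.toFinset ×ˢ (Finset.univ : Finset Bool) : Finset (Circ × Bool)) : Set (Circ × Bool)) := by
    intro x hx
    simp only [Finset.coe_product, Set.mem_prod, Finset.mem_coe, Set.Finite.mem_toFinset,
      Finset.mem_univ, and_true]
    exact ⟨x, hYX hx, rfl⟩
  have hinj : Set.InjOn (fun x : Conf => (pi q x, decide (x q = 0))) (Y : Set Conf) := by
    intro x hx y hy hxy
    simp only [Prod.mk.injEq, decide_eq_decide] at hxy
    by_contra hne
    obtain ⟨i, hi, hxi⟩ := hk x hx y hy hne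
    exact hxi (dig_eq hX q hfq (hYX hx) hxy.1 hxy.2 i hi)
  have hle := Finset.card_le_card_of_injOn _ hmap hinj
  rw [hYc, Finset.card_product, Finset.card_univ, Fintype.card_bool] at hle
  have h3 : hfq.toFinset.card = (pi q '' X).ncard := (Set.ncard_eq_toFinset_card _ hfq).symm
  rw [h3] at hle
  omega

/-- chains -/
lemma exists_chain {X : Set Conf} (hX : F '' X = X) {x : Conf} (hx : x ∈ X) :
    ∃ y : ℤ → Conf, (∀ n, y n ∈ X) ∧ (∀ n, F (y n) = y (n + 1)) ∧ y 0 = x := by
  have hF : ∀ x ∈ X, F x ∈ X := fun x hx => by rw [← hX]; exact ⟨x, hx, rfl⟩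
  have hG : ∀ x : X, ∃ y : X, F y = x := by
    rintro ⟨x, hx⟩
    have hx' := hx
    rw [← hX] at hx'
    obtain ⟨y, hy, hyx⟩ := hx'
    exact ⟨⟨y, hy⟩, hyx⟩
  choose g hg using hG
  refine ⟨fun n => match n with
    | Int.ofNat k => F^[k] x
    | Int.negSucc k => (g^[k + 1] ⟨x, hx⟩ : X), ?_, ?_, rfl⟩
  · intro n
    rcases n with k | k
    · show F^[k] x ∈ X
      induction k with
      | zero => exact hx
      | succ k ih => rw [Function.iterate_succ_apply']; exact hF _ ih
    · exact (g^[k + 1] ⟨x, hx⟩).2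
  · intro n
    rcases n with k | k
    · show F (F^[k] x) = F^[k + 1] x
      rw [Function.iterate_succ_apply']
    · rcases k with _ | k
      · show F (g^[1] ⟨x, hx⟩ : X) = x
        rw [Function.iterate_one]; exact hg _
      · show F (g^[k + 1 + 1] ⟨x, hx⟩ : X) = (g^[k + 1] ⟨x, hx⟩ : X)
        rw [Function.iterate_succ_apply']; exact hg _

/-- Module S2. -/
theorem conf (H : S_SETS) : S_CONF := by
  classical
  intro L ε hε
  -- the open sets
  set U : (Fin L → Fin 6) → Set Circ := fun w => {u | ∀ t : Fin L, 6 ^ (t : ℕ) • u ∈ A (w t)} with hU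
  have hUo : ∀ w, IsOpen (U w) := by
    intro w
    have h1 : U w = ⋂ t : Fin L, (fun u : Circ => 6 ^ (t : ℕ) • u) ⁻¹' A (w t) := by
      ext u; simp [hU]
    rw [h1]
    exact isOpen_iInter_of_finite fun t => (isOpen_A _).preimage (continuous_nsmul _)
  have hUn : ∀ w, (U w).Nonempty := by
    intro w
    obtain ⟨v, -, -, hv⟩ := exists_pt L (fun i => if h : i < L then w ⟨i, h⟩ else 0)
    refine ⟨(v : Circ), fun t => ?_⟩
    have := hv t t.isLt
    simpa [t.isLt] using this
  obtain ⟨R, hR0, hR⟩ := H (Fin L → Fin 6) U hUo hUn 6 3 (by norm_num) (Or.inl (by norm_num)) ε hε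
  refine ⟨R, hR0, ?_⟩
  intro X hX hinf p
  set Z : Set (ℤ → Circ) := {z | ∃ y : ℤ → Conf, (∀ n, y n ∈ X) ∧ (∀ n, F (y n) = y (n + 1)) ∧
    z = fun n => pi p (y n)} with hZ
  have h1 : ∀ z ∈ Z, ∀ n, 2 • z (n + 1) = 3 • z n := by
    rintro z ⟨y, -, hy, rfl⟩ n
    simp only
    rw [← hy n, two_pi]
  have h2 : ∀ z ∈ Z, (fun n => z (n + 1)) ∈ Z ∧ (fun n => z (n - 1)) ∈ Z := by
    rintro z ⟨y, hyX, hy, rfl⟩
    refine ⟨⟨fun n => y (n + 1), fun n => hyX _, fun n => hy _, rfl⟩,
      ⟨fun n => y (n - 1), fun n => hyX _, fun n => ?_, rfl⟩⟩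
    simp only
    rw [hy]
    congr 1
    ring
  have h3 : {x | ∃ z ∈ Z, z 0 = x}.Infinite := by
    refine (infinite_pts hX hinf p).mono ?_
    rintro z ⟨x, hx, rfl⟩
    obtain ⟨y, hyX, hy, hy0⟩ := exists_chain hX hx
    exact ⟨fun n => pi p (y n), ⟨y, hyX, hy, rfl⟩, by simp only; rw [hy0]⟩
  refine le_trans ?_ (hR Z h1 h2 h3)
  norm_cast
  refine Finset.card_le_card fun j hj => ?_
  rw [Finset.mem_filter] at hj ⊢
  refine ⟨hj.1, ?_⟩
  obtain ⟨w, hw⟩ := hj.2
  refine ⟨w, ?_⟩
  rintro z ⟨y, hyX, hy, rfl⟩ hmem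
  refine hw (y 0) (hyX 0) fun t => ?_
  have h4 := hmem t
  simp only at h4
  rw [six_pow_pi, six_pow_pi] at h4
  have h5 := digit_of_mem h4
  simp only [dig] at h5
  rw [← h5]
  congr 1
  push_cast
  ring

end Pool.Agent.Zk63.RS45
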